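import Pool.Agent.H852R2.EX.Defs
import Pool.Agent.H911R2.RC.AMP2

/-! Task 23: weighted count of words, and one round of the amplification with small loss. -/

namespace RC852
open RC14 Finset
open scoped InnerProductSpace

variable {G : Type*} [Group G] [Fintype G]
variable {V : Type*} [NormedAddCommGroup V] [InnerProductSpace ℂ V] [FiniteDimensional ℂ V]

/-- words of length `m` in `q` letters weighted by the size of their range -/
theorem WORDS2 (q m : ℕ) (hq : 1 ≤ q) (Λ T : ℝ) (hT : 0 ≤ T)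
    (hm : (m : ℝ) * T ≤ Λ * q * Real.exp (-T) / 2) :
    ∑ s : Fin m → Fin q, (1 / (q : ℝ)) ^ m *
      Real.exp (-(Λ * (List.ofFn s).toFinset.card) / 2) ≤ 2 ^ q * Real.exp (-(T * m)) := by
  classical
  have hq0 : (0 : ℝ) < q := by exact_mod_cast hq
  have hΛ : 0 ≤ Λ := by
    by_contra hcon
    have h1 : 0 ≤ (m : ℝ) * T := by positivity
    have h2 : Λ * (q * Real.exp (-T) / 2) < 0 :=
      mul_neg_of_neg_of_pos (not_le.1 hcon) (by positivity)
    have h3 : Λ * q * Real.exp (-T) / 2 = Λ * (q * Real.exp (-T) / 2) := by ring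
    linarith
  have h1 : ∀ s : Fin m → Fin q, (1 / (q : ℝ)) ^ m *
      Real.exp (-(Λ * (List.ofFn s).toFinset.card) / 2) ≤
      ∑ A : Finset (Fin q), if (∀ i, s i ∈ A) then
        (1 / (q : ℝ)) ^ m * Real.exp (-(Λ * A.card) / 2) else 0 := by
    intro s
    have h2 : ∀ i, s i ∈ (List.ofFn s).toFinset := by
      intro i
      simp
    have h3 := Finset.single_le_sum (f := fun A : Finset (Fin q) => if (∀ i, s i ∈ A) then
        (1 / (q : ℝ)) ^ m * Real.exp (-(Λ * A.card) / 2) else 0) (s := Finset.univ)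
        (fun A _ => by
          split_ifs
          · positivity
          · exact le_rfl) (Finset.mem_univ (List.ofFn s).toFinset)
    rw [if_pos h2] at h3
    exact h3
  refine (Finset.sum_le_sum fun s _ => h1 s).trans ?_
  rw [Finset.sum_comm]
  have h4 : ∀ A : Finset (Fin q), ∑ s : Fin m → Fin q, (if (∀ i, s i ∈ A) then
        (1 / (q : ℝ)) ^ m * Real.exp (-(Λ * A.card) / 2) else 0) ≤ Real.exp (-(T * m)) := by
    intro A
    rw [← Finset.sum_filter, Finset.sum_const, nsmul_eq_mul]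
    have h5 : (Finset.univ.filter fun s : Fin m → Fin q => ∀ i, s i ∈ A).card = A.card ^ m := by
      have h6 : (Finset.univ.filter fun s : Fin m → Fin q => ∀ i, s i ∈ A) =
          Fintype.piFinset fun _ => A := by
        ext s
        simp
      rw [h6, Fintype.card_piFinset]
      simp
    rw [h5]
    push_cast
    rw [← mul_assoc, ← mul_pow]
    have ha0 : (0 : ℝ) ≤ A.card := by positivity
    have haq : (A.card : ℝ) ≤ q := by
      have := Finset.card_le_univ A
      rw [Fintype.card_fin] at this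
      exact_mod_cast this
    rcases le_total (A.card : ℝ) (Real.exp (-T) * q) with hc | hc
    · have h7 : (A.card : ℝ) * (1 / (q : ℝ)) ≤ Real.exp (-T) := by
        rw [mul_one_div, div_le_iff₀ hq0]
        exact hc
      have h8 : ((A.card : ℝ) * (1 / (q : ℝ))) ^ m ≤ Real.exp (-(T * m)) := by
        have h9 : Real.exp (-(T * m)) = Real.exp (-T) ^ m := by
          rw [← Real.exp_nat_mul]; congr 1; ring
        rw [h9]
        exact pow_le_pow_left₀ (by positivity) h7 m
      have h9 : Real.exp (-(Λ * A.card) / 2) ≤ 1 := by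
        rw [Real.exp_le_one_iff]
        have : 0 ≤ Λ * A.card := by positivity
        linarith
      calc ((A.card : ℝ) * (1 / (q : ℝ))) ^ m * Real.exp (-(Λ * A.card) / 2)
          ≤ Real.exp (-(T * m)) * 1 := by gcongr
        _ = _ := mul_one _
    · have h7 : (A.card : ℝ) * (1 / (q : ℝ)) ≤ 1 := by
        rw [mul_one_div, div_le_iff₀ hq0, one_mul]
        exact haq
      have h8 : ((A.card : ℝ) * (1 / (q : ℝ))) ^ m ≤ 1 := pow_le_one₀ (by positivity) h7
      have h9 : Real.exp (-(Λ * A.card) / 2) ≤ Real.exp (-(T * m)) := by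
        apply Real.exp_le_exp.2
        have h10 : Λ * (Real.exp (-T) * q) ≤ Λ * A.card := mul_le_mul_of_nonneg_left hc hΛ
        nlinarith
      calc ((A.card : ℝ) * (1 / (q : ℝ))) ^ m * Real.exp (-(Λ * A.card) / 2)
          ≤ 1 * Real.exp (-(T * m)) := by gcongr
        _ = _ := one_mul _
  refine (Finset.sum_le_sum fun A _ => h4 A).trans ?_
  simp

open RC14.AMP2 in
/-- one round with small loss (cf. `AMP2STEP`) -/
theorem STEP2 (ρ : G →* (V ≃ₗᵢ[ℂ] V)) (hirr : Irr ρ ⊤) (E : Module.End ℂ V)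
    (hE : SymIdem E) (q : ℕ) (hq : 1 ≤ q) (Λ T θ : ℝ) (hΛ : 0 ≤ Λ) (hT : 0 ≤ T) (hθ : 0 < θ)
    (hθ1 : θ < 1) (hτ : rtr E ≤ Real.exp (-Λ) * Module.finrank ℂ V) (m : ℕ)
    (hm : (m : ℝ) * T ≤ Λ * q * Real.exp (-T) / 2) :
    ∃ E' : (Fin q → G) → Module.End ℂ V, (∀ z, SymIdem (E' z)) ∧
      (∀ z v, (1 - θ) * ‖v - E' z v‖ ^ 2 ≤ (1 / q : ℝ) * ∑ j, ‖v - cj ρ E (z j) v‖ ^ 2) ∧
      ∑ z, rtr (E' z) ≤ (Fintype.card G : ℝ) ^ q * Module.finrank ℂ V * 4 ^ q *
        (Real.exp (-(2 * T)) / θ ^ 2) ^ m := by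
  classical
  have hq0 : (0 : ℝ) < q := by exact_mod_cast hq
  have hqC : (q : ℂ) ≠ 0 := by exact_mod_cast hq0.ne'
  have hnt : Nontrivial V := by
    rcases subsingleton_or_nontrivial V with h | h
    · exfalso
      apply hirr.1
      exact Subsingleton.elim _ _
    · exact h
  have hd : (0:ℝ) < Module.finrank ℂ V := by
    exact_mod_cast Module.finrank_pos
  set d : ℝ := (Module.finrank ℂ V : ℝ) with hdd
  let M : (Fin q → G) → Module.End ℂ V := fun z => (1 / q : ℂ) • ∑ j, cj ρ E (z j)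
  have hMsym : ∀ z, (M z).IsSymmetric := by
    intro z v w
    have hc : (starRingEnd ℂ) (1 / q : ℂ) = 1 / q := by
      have h : (1 / q : ℂ) = ((1 / q : ℝ) : ℂ) := by push_cast; rfl
      rw [h, Complex.conj_ofReal]
    simp only [M, LinearMap.smul_apply, LinearMap.sum_apply]
    rw [inner_smul_left, inner_smul_right, sum_inner, inner_sum, hc]
    congr 1
    exact Finset.sum_congr rfl fun j _ => (cj_proj ρ E hE (z j)).1 v w
  have hMin : ∀ z v, (⟪M z v, v⟫_ℂ).re = ‖v‖ ^ 2 - (1 / q : ℝ) * ∑ j, ‖v - cj ρ E (z j) v‖ ^ 2 := by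
    intro z v
    have h1 : (⟪M z v, v⟫_ℂ).re = (1 / q : ℝ) * ∑ j, (⟪cj ρ E (z j) v, v⟫_ℂ).re := by
      simp only [M, LinearMap.smul_apply, LinearMap.sum_apply]
      have hc : (starRingEnd ℂ) (1 / q : ℂ) = ((1 / q : ℝ) : ℂ) := by
        have h : (1 / q : ℂ) = ((1 / q : ℝ) : ℂ) := by push_cast; rfl
        rw [h, Complex.conj_ofReal]
      rw [inner_smul_left, sum_inner, hc, Complex.re_ofReal_mul, Complex.re_sum]
    rw [h1]
    have h2 : ∀ j, (⟪cj ρ E (z j) v, v⟫_ℂ).re = ‖v‖ ^ 2 - ‖v - cj ρ E (z j) v‖ ^ 2 := by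
      intro j
      rw [proj_pyth _ (cj_proj ρ E hE (z j)) v]
      ring
    rw [Finset.sum_congr rfl fun j _ => h2 j, Finset.sum_sub_distrib]
    simp
    field_simp
  have hspec : ∀ z, ∃ E' : Module.End ℂ V, SymIdem E' ∧
      (∀ L : ℕ, θ ^ (2 * L) * rtr E' ≤ rtr (M z ^ (2 * L))) ∧
      ∀ v, (1 - θ) * ‖v - E' v‖ ^ 2 ≤ ‖v‖ ^ 2 - (⟪M z v, v⟫_ℂ).re := by
    intro z
    refine SPEC (M z) (hMsym z) ?_ θ hθ hθ1
    intro v
    rw [hMin]
    have : 0 ≤ (1 / q : ℝ) * ∑ j, ‖v - cj ρ E (z j) v‖ ^ 2 := by positivity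
    linarith
  choose E' hE' htr hgap using hspec
  refine ⟨E', hE', ?_, ?_⟩
  · intro z v
    have h1 := hgap z v
    rw [hMin] at h1
    linarith
  · -- the trace bound
    have hE0 : 0 ≤ rtr E := by
      rw [← (hs_proj E hE).1]
      exact hs_nonneg E
    have hτ1 : rtr E / d ≤ Real.exp (-Λ) := by
      rw [div_le_iff₀ hd]
      exact hτ
    have hτ0 : 0 ≤ rtr E / d := by positivity
    set N : ℝ := (Fintype.card G : ℝ) ^ q * d with hN
    have hN0 : 0 ≤ N := by positivity
    have h1 : ∀ z, rtr (E' z) ≤ (1 / θ ^ 2) ^ m * hs (M z ^ m) := by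
      intro z
      have h2 := htr z m
      have h3 : hs (M z ^ m) = rtr (M z ^ (2 * m)) := by
        unfold hs
        congr 1
        have h4 : LinearMap.adjoint (M z ^ m) = M z ^ m := by
          have h5 : IsSelfAdjoint (M z) := (LinearMap.isSymmetric_iff_isSelfAdjoint _).1 (hMsym z)
          have h6 := h5.pow m
          exact h6
        rw [h4, ← pow_add]
        congr 1
        ring
      rw [h3]
      have h4 : (1 / θ ^ 2 : ℝ) ^ m * (θ ^ (2 * m) * rtr (E' z)) = rtr (E' z) := by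
        rw [← mul_assoc, pow_mul, ← mul_pow]
        have h5 : 1 / θ ^ 2 * θ ^ 2 = 1 := by field_simp
        rw [h5, one_pow, one_mul]
      calc rtr (E' z) = (1 / θ ^ 2 : ℝ) ^ m * (θ ^ (2 * m) * rtr (E' z)) := h4.symm
        _ ≤ _ := by gcongr
    have h2 : Real.sqrt (∑ z, hs (M z ^ m)) ≤ Real.sqrt N * (2 ^ q * Real.exp (-(T * m))) := by
      have h3 : ∀ z, M z ^ m = ∑ s : Fin m → Fin q,
          ((1 / q : ℂ) ^ m) • ((List.ofFn s).map fun i => cj ρ E (z i)).prod := by
        intro z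
        simp only [M]
        rw [smul_pow, sum_pow_list, Finset.smul_sum]
      have h4 : ∑ z, hs (M z ^ m) = ∑ z : Fin q → G, hs (∑ s : Fin m → Fin q,
          ((1 / q : ℂ) ^ m) • ((List.ofFn s).map fun i => cj ρ E (z i)).prod) :=
        Finset.sum_congr rfl fun z _ => by rw [h3 z]
      rw [h4]
      refine (sqrt_hs_sum_le (fun (s : Fin m → Fin q) (z : Fin q → G) =>
        ((1 / q : ℂ) ^ m) • ((List.ofFn s).map fun i => cj ρ E (z i)).prod)).trans ?_
      have h5 : ∀ s : Fin m → Fin q, Real.sqrt (∑ z : Fin q → G,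
          hs (((1 / q : ℂ) ^ m) • ((List.ofFn s).map fun i => cj ρ E (z i)).prod)) ≤
          Real.sqrt N * ((1 / (q : ℝ)) ^ m *
            Real.exp (-(Λ * (List.ofFn s).toFinset.card) / 2)) := by
        intro s
        have h6 : ∑ z : Fin q → G,
          hs (((1 / q : ℂ) ^ m) • ((List.ofFn s).map fun i => cj ρ E (z i)).prod) ≤
            N * ((1 / (q : ℝ)) ^ m *
              Real.exp (-(Λ * (List.ofFn s).toFinset.card) / 2)) ^ 2 := by
          have h7 : ∀ z : Fin q → G,
              hs (((1 / q : ℂ) ^ m) • ((List.ofFn s).map fun i => cj ρ E (z i)).prod) =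
              ((1 / (q : ℝ)) ^ m) ^ 2 * hs (((List.ofFn s).map fun i => cj ρ E (z i)).prod) := by
            intro z
            rw [hs_smul]
            congr 2
            rw [norm_pow, norm_div, norm_one, Complex.norm_natCast]
          rw [Finset.sum_congr rfl fun z _ => h7 z, ← Finset.mul_sum]
          have h8 := PEEL ρ hirr E hE q (List.ofFn s)
          have h9 : (rtr E / d) ^ (List.ofFn s).toFinset.card ≤
              Real.exp (-(Λ * (List.ofFn s).toFinset.card) / 2) ^ 2 := by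
            calc (rtr E / d) ^ (List.ofFn s).toFinset.card ≤
                Real.exp (-Λ) ^ (List.ofFn s).toFinset.card := pow_le_pow_left₀ hτ0 hτ1 _
              _ = Real.exp ((List.ofFn s).toFinset.card * (-Λ)) := (Real.exp_nat_mul _ _).symm
              _ = Real.exp ((2 : ℕ) * (-(Λ * (List.ofFn s).toFinset.card) / 2)) := by
                congr 1
                push_cast
                ring
              _ = _ := Real.exp_nat_mul _ _
          calc ((1 / (q : ℝ)) ^ m) ^ 2 *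
                ∑ z : Fin q → G, hs (((List.ofFn s).map fun i => cj ρ E (z i)).prod) ≤
                ((1 / (q : ℝ)) ^ m) ^ 2 * (N * (rtr E / d) ^ (List.ofFn s).toFinset.card) := by
                  gcongr
            _ ≤ ((1 / (q : ℝ)) ^ m) ^ 2 *
                (N * Real.exp (-(Λ * (List.ofFn s).toFinset.card) / 2) ^ 2) := by gcongr
            _ = _ := by ring
        calc Real.sqrt _ ≤ Real.sqrt (N * ((1 / (q : ℝ)) ^ m *
              Real.exp (-(Λ * (List.ofFn s).toFinset.card) / 2)) ^ 2) := Real.sqrt_le_sqrt h6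
          _ = _ := by
            rw [Real.sqrt_mul hN0, Real.sqrt_sq (by positivity)]
      calc _ ≤ ∑ s : Fin m → Fin q, Real.sqrt N * ((1 / (q : ℝ)) ^ m *
            Real.exp (-(Λ * (List.ofFn s).toFinset.card) / 2)) :=
            Finset.sum_le_sum fun s _ => h5 s
        _ = Real.sqrt N * ∑ s : Fin m → Fin q, ((1 / (q : ℝ)) ^ m *
            Real.exp (-(Λ * (List.ofFn s).toFinset.card) / 2)) := by rw [Finset.mul_sum]
        _ ≤ _ := by
          gcongr
          exact WORDS2 q m hq Λ T hT hm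
    have h3 : ∑ z, hs (M z ^ m) ≤ N * (2 ^ q * Real.exp (-(T * m))) ^ 2 := by
      have h4 : 0 ≤ ∑ z, hs (M z ^ m) := Finset.sum_nonneg fun z _ => hs_nonneg _
      calc ∑ z, hs (M z ^ m) = (Real.sqrt (∑ z, hs (M z ^ m))) ^ 2 := (Real.sq_sqrt h4).symm
        _ ≤ (Real.sqrt N * (2 ^ q * Real.exp (-(T * m)))) ^ 2 := by gcongr
        _ = _ := by rw [mul_pow, Real.sq_sqrt hN0]
    calc ∑ z, rtr (E' z) ≤ ∑ z, (1 / θ ^ 2) ^ m * hs (M z ^ m) :=
          Finset.sum_le_sum fun z _ => h1 z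
      _ = (1 / θ ^ 2) ^ m * ∑ z, hs (M z ^ m) := by rw [Finset.mul_sum]
      _ ≤ (1 / θ ^ 2) ^ m * (N * (2 ^ q * Real.exp (-(T * m))) ^ 2) := by gcongr
      _ = N * 4 ^ q * (Real.exp (-(2 * T)) / θ ^ 2) ^ m := by
        have h5 : Real.exp (-(T * m)) ^ 2 = Real.exp (-(2 * T)) ^ m := by
          rw [← Real.exp_nat_mul, ← Real.exp_nat_mul]
          congr 1
          push_cast
          ring
        have h6 : ((2 : ℝ) ^ q) ^ 2 = 4 ^ q := by
          rw [← pow_mul, mul_comm, pow_mul]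
          norm_num
        rw [mul_pow, h5, h6, div_pow, div_pow, one_pow]
        ring

end RC852
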