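import Pool.Agent.H852R2.EX.S.OPS
import Pool.Agent.H485R2.EX.STEP2

/-! Task 24: iterated amplification with bounded total loss. -/

namespace RC852
open RC14 Finset
open scoped InnerProductSpace

variable {G : Type*} [Group G] [Fintype G]
variable {V : Type*} [NormedAddCommGroup V] [InnerProductSpace ℂ V] [FiniteDimensional ℂ V]

namespace ITER2aux

/-- numerical estimate of the first bad event -/
theorem num2 (q m R : ℕ) (hR : 1 ≤ R) (hq : 12 * (R + 1) ^ 2 ≤ q) (Λ Λ' : ℝ)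
    (hΛ : 12 * ((R : ℝ) + 1) ^ 2 ≤ Λ) (hΛ' : Λ' = Λ * q / (12 * ((R : ℝ) + 1) ^ 2))
    (hm : 2 * Λ' - 1 ≤ m) :
    (4 : ℝ) ^ q * (Real.exp (-2)) ^ m * Real.exp Λ' ≤ Real.exp (-Λ') := by
  have hR1 : (1 : ℝ) ≤ R := by exact_mod_cast hR
  have hqR : 12 * ((R : ℝ) + 1) ^ 2 ≤ q := by exact_mod_cast hq
  have hN : (4 : ℝ) ≤ ((R : ℝ) + 1) ^ 2 := by nlinarith
  have hq48 : (48 : ℝ) ≤ q := by linarith
  have hpos : (0 : ℝ) < 12 * ((R : ℝ) + 1) ^ 2 := by positivity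
  have h0 : (q : ℝ) ≤ Λ' := by
    rw [hΛ', le_div_iff₀ hpos]
    have := mul_le_mul_of_nonneg_left hΛ (by linarith : (0 : ℝ) ≤ q)
    linarith
  have h4 : (4 : ℝ) ≤ Real.exp (1.3864) := by
    have h := Real.log_two_lt_d9
    have h1 : (4 : ℝ) = Real.exp (2 * Real.log 2) := by
      rw [mul_comm, Real.exp_mul, Real.exp_log (by norm_num)]
      norm_num
    rw [h1]
    exact Real.exp_le_exp.2 (by linarith)
  have h5 : (4 : ℝ) ^ q ≤ Real.exp (q * 1.3864) := by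
    rw [Real.exp_nat_mul]
    exact pow_le_pow_left₀ (by norm_num) h4 q
  have h6 : (Real.exp (-2)) ^ m = Real.exp (m * (-2)) := by
    rw [Real.exp_nat_mul]
  calc (4 : ℝ) ^ q * (Real.exp (-2)) ^ m * Real.exp Λ' ≤
      Real.exp (q * 1.3864) * Real.exp (m * (-2)) * Real.exp Λ' := by rw [h6]; gcongr
    _ = Real.exp (q * 1.3864 + m * (-2) + Λ') := by rw [← Real.exp_add, ← Real.exp_add]
    _ ≤ _ := by
      apply Real.exp_le_exp.2
      linarith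

/-- admissibility of the word length -/
theorem num3 (R : ℕ) (hR : 1 ≤ R) (q m : ℕ) (Λ : ℝ) (hΛ : 0 ≤ Λ)
    (hm : (m : ℝ) ≤ 2 * (Λ * q / (12 * ((R : ℝ) + 1) ^ 2))) :
    (m : ℝ) * (1 + Real.log ((R : ℝ) + 1)) ≤
      Λ * q * Real.exp (-(1 + Real.log ((R : ℝ) + 1))) / 2 := by
  have hR1 : (1 : ℝ) ≤ R := by exact_mod_cast hR
  set N : ℝ := (R : ℝ) + 1 with hN
  have hN0 : 0 < N := by linarith
  have hlog : Real.log N ≤ N - 1 := Real.log_le_sub_one_of_pos hN0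
  have hlog0 : 0 ≤ Real.log N := Real.log_nonneg (by linarith)
  have he : Real.exp (-(1 + Real.log N)) = Real.exp (-1) / N := by
    rw [neg_add, Real.exp_add, Real.exp_neg (Real.log N), Real.exp_log hN0]
    rfl
  rw [he]
  have he3 : (1 / 3 : ℝ) ≤ Real.exp (-1) := by
    rw [Real.exp_neg, one_div]
    exact inv_anti₀ (Real.exp_pos 1) (by have := Real.exp_one_lt_d9; linarith)
  have hq0 : (0 : ℝ) ≤ q := by positivity
  have h1 : (m : ℝ) * (1 + Real.log N) ≤ 2 * (Λ * q / (12 * N ^ 2)) * N := by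
    have h2 : 1 + Real.log N ≤ N := by linarith
    have h3 : 0 ≤ 2 * (Λ * q / (12 * N ^ 2)) := by positivity
    calc (m : ℝ) * (1 + Real.log N) ≤ 2 * (Λ * q / (12 * N ^ 2)) * (1 + Real.log N) := by
          gcongr
      _ ≤ _ := by gcongr
  refine h1.trans ?_
  have h4 : 2 * (Λ * q / (12 * N ^ 2)) * N = Λ * q * (1 / 3 / N) / 2 := by
    field_simp
    ring
  rw [h4]
  gcongr

/-- energy comparison in one round -/
theorem step_energy (ρ : G →* (V ≃ₗᵢ[ℂ] V)) (E0 E' : Module.End ℂ V) (hE0 : SymIdem E0)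
    (q R : ℕ) (hq : 1 ≤ q) (hR : 1 ≤ R) (z : Fin q → G) (v : V)
    (h : (1 - 1 / ((R : ℝ) + 1)) * ‖v - E' v‖ ^ 2 ≤
      (1 / q : ℝ) * ∑ j, ‖v - cj ρ E0 (z j) v‖ ^ 2) :
    ‖v - E' v‖ ^ 2 ≤ (((R : ℝ) + 2) / R) * ‖v - E0 v‖ ^ 2 + 6 * R / (q : ℝ) * En ρ z v := by
  have hq0 : (0 : ℝ) < q := by exact_mod_cast hq
  have hR0 : (1 : ℝ) ≤ R := by exact_mod_cast hR
  have hR0' : (0 : ℝ) < R := by linarith
  have hEn : 0 ≤ En ρ z v := AMP1.En_nonneg ρ z v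
  have h1 : ∀ j, ‖v - cj ρ E0 (z j) v‖ ^ 2 ≤
      (1 + 1 / ((R : ℝ) + 1)) * ‖v - E0 v‖ ^ 2 + ((R : ℝ) + 2) * ‖ρ (z j) v - v‖ ^ 2 := by
    intro j
    have h2 := AMP1.cj_dist ρ E0 hE0 (z j) v
    rw [norm_sub_rev] at h2
    set A := ‖v - E0 v‖
    set B := ‖ρ (z j) v - v‖
    have h3 : ‖v - cj ρ E0 (z j) v‖ ^ 2 ≤ (A + B) ^ 2 := by gcongr
    have h4 : 2 * A * B ≤ 1 / ((R : ℝ) + 1) * A ^ 2 + ((R : ℝ) + 1) * B ^ 2 := by
      have h5 : 0 ≤ (A - ((R : ℝ) + 1) * B) ^ 2 / ((R : ℝ) + 1) := by positivity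
      have h6 : (A - ((R : ℝ) + 1) * B) ^ 2 / ((R : ℝ) + 1) =
          1 / ((R : ℝ) + 1) * A ^ 2 + ((R : ℝ) + 1) * B ^ 2 - 2 * A * B := by
        field_simp
        ring
      linarith
    nlinarith
  have h2 : (1 / q : ℝ) * ∑ j, ‖v - cj ρ E0 (z j) v‖ ^ 2 ≤
      (1 + 1 / ((R : ℝ) + 1)) * ‖v - E0 v‖ ^ 2 + ((R : ℝ) + 2) / q * En ρ z v := by
    calc (1 / q : ℝ) * ∑ j, ‖v - cj ρ E0 (z j) v‖ ^ 2 ≤
      (1 / q : ℝ) * ∑ j, ((1 + 1 / ((R : ℝ) + 1)) * ‖v - E0 v‖ ^ 2 +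
        ((R : ℝ) + 2) * ‖ρ (z j) v - v‖ ^ 2) := by
          gcongr with j _
          exact h1 j
      _ = _ := by
        rw [Finset.sum_add_distrib, Finset.sum_const, Finset.card_univ,
          Fintype.card_fin, nsmul_eq_mul, ← Finset.mul_sum]
        unfold En
        field_simp
  have h3 := h.trans h2
  have h4 : (1 : ℝ) - 1 / ((R : ℝ) + 1) = R / ((R : ℝ) + 1) := by
    field_simp
    ring
  rw [h4] at h3
  have h5 : ‖v - E' v‖ ^ 2 ≤ (((R : ℝ) + 1) / R) *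
      ((1 + 1 / ((R : ℝ) + 1)) * ‖v - E0 v‖ ^ 2 + ((R : ℝ) + 2) / q * En ρ z v) := by
    have h6 : ‖v - E' v‖ ^ 2 = (((R : ℝ) + 1) / R) * (R / ((R : ℝ) + 1) * ‖v - E' v‖ ^ 2) := by
      field_simp
    rw [h6]
    gcongr
  refine h5.trans ?_
  have h7 : (((R : ℝ) + 1) / R) *
      ((1 + 1 / ((R : ℝ) + 1)) * ‖v - E0 v‖ ^ 2 + ((R : ℝ) + 2) / q * En ρ z v) =
      (((R : ℝ) + 2) / R) * ‖v - E0 v‖ ^ 2 + (((R : ℝ) + 1) * ((R : ℝ) + 2) / R) / q * En ρ z v := by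
    field_simp
    ring
  rw [h7]
  have h8 : ((R : ℝ) + 1) * ((R : ℝ) + 2) / R ≤ 6 * R := by
    rw [div_le_iff₀ hR0']
    nlinarith [mul_nonneg (by linarith : (0:ℝ) ≤ R - 1) (by linarith : (0:ℝ) ≤ 5 * (R:ℝ) + 2)]
  gcongr

set_option maxHeartbeats 4000000 in
open AMP2 in
theorem iter (ρ : G →* (V ≃ₗᵢ[ℂ] V)) (hirr : Irr ρ ⊤) (q R : ℕ) (hR : 1 ≤ R)
    (hq : 12 * (R + 1) ^ 2 ≤ q) (r : ℕ) :
    ∀ (E0 : Module.End ℂ V), SymIdem E0 → ∀ Λ : ℝ, 12 * ((R : ℝ) + 1) ^ 2 ≤ Λ →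
      rtr E0 ≤ Real.exp (-Λ) * Module.finrank ℂ V →
      (Module.finrank ℂ V : ℝ) < Real.exp (Λ * (q / (12 * ((R : ℝ) + 1) ^ 2)) ^ r) →
      (Nat.card {z : Fin r → Fin q → G // ¬ ∀ v : V,
        ‖v‖ ^ 2 ≤ (((R : ℝ) + 2) / R) ^ r * ‖v - E0 v‖ ^ 2 +
          6 * R * (((R : ℝ) + 2) / R) ^ r / (q : ℝ) * ∑ i, En ρ (z i) v} : ℝ) ≤
      r * Real.exp (-(Λ * q / (12 * ((R : ℝ) + 1) ^ 2))) *
        (Fintype.card G : ℝ) ^ (r * q) := by
  classical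
  have hR1 : (1 : ℝ) ≤ R := by exact_mod_cast hR
  have hR0 : (0 : ℝ) < R := by linarith
  have hqR : 12 * ((R : ℝ) + 1) ^ 2 ≤ q := by exact_mod_cast hq
  have hN : (4 : ℝ) ≤ ((R : ℝ) + 1) ^ 2 := by nlinarith
  have hq48 : (48 : ℝ) ≤ q := by linarith
  have hq0 : (0 : ℝ) < q := by linarith
  have hq1 : 1 ≤ q := by exact_mod_cast (by linarith : (1 : ℝ) ≤ q)
  have hpos : (0 : ℝ) < 12 * ((R : ℝ) + 1) ^ 2 := by positivity
  have hnt : Nontrivial V := by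
    rcases subsingleton_or_nontrivial V with h | h
    · exfalso
      apply hirr.1
      exact Subsingleton.elim _ _
    · exact h
  have hd : (0:ℝ) < Module.finrank ℂ V := by
    exact_mod_cast Module.finrank_pos
  set d : ℝ := (Module.finrank ℂ V : ℝ) with hdd
  set κ : ℝ := ((R : ℝ) + 2) / R with hκ
  have hκ1 : 1 ≤ κ := by rw [hκ, le_div_iff₀ hR0]; linarith
  have hκ0 : 0 < κ := by linarith
  induction r with
  | zero =>
    intro E0 hE0 Λ hΛ hτ hdΛ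
    have h1 : rtr E0 < 1 := by
      rw [pow_zero, mul_one] at hdΛ
      calc rtr E0 ≤ Real.exp (-Λ) * d := hτ
        _ < Real.exp (-Λ) * Real.exp Λ := by gcongr
        _ = 1 := by rw [← Real.exp_add]; simp
    have h2 := proj_zero E0 hE0 h1
    have h3 : ∀ z : Fin 0 → Fin q → G, ∀ v : V, ‖v‖ ^ 2 ≤ κ ^ 0 * ‖v - E0 v‖ ^ 2 +
          6 * R * κ ^ 0 / (q : ℝ) * ∑ i, En ρ (z i) v := by
      intro z v
      rw [h2]
      simp
    have h4 : IsEmpty {z : Fin 0 → Fin q → G // ¬ ∀ v : V, ‖v‖ ^ 2 ≤ κ ^ 0 * ‖v - E0 v‖ ^ 2 +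
          6 * R * κ ^ 0 / (q : ℝ) * ∑ i, En ρ (z i) v} := ⟨fun z => z.2 (h3 z.1)⟩
    rw [Nat.card_of_isEmpty]
    simp
  | succ r ih =>
    intro E0 hE0 Λ hΛ hτ hdΛ
    have hΛ0 : 0 < Λ := by linarith
    set Λ' : ℝ := Λ * q / (12 * ((R : ℝ) + 1) ^ 2) with hΛ'
    have hΛ'0 : 0 < Λ' := by positivity
    set m : ℕ := ⌊2 * Λ'⌋₊ with hm
    have hm1 : (m : ℝ) ≤ 2 * Λ' := Nat.floor_le (by positivity)
    have hm2 : 2 * Λ' - 1 ≤ m := by
      have := Nat.lt_floor_add_one (2 * Λ')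
      linarith
    have hlog0 : 0 ≤ Real.log ((R : ℝ) + 1) := Real.log_nonneg (by linarith)
    obtain ⟨E', hE', hgap, htr⟩ := STEP2 ρ hirr E0 hE0 q hq1 Λ (1 + Real.log ((R : ℝ) + 1))
      (1 / ((R : ℝ) + 1)) hΛ0.le (by linarith) (by positivity)
      (by rw [div_lt_one (by positivity)]; linarith) hτ m (num3 R hR q m Λ hΛ0.le hm1)
    rw [← hdd] at htr
    have hexp : Real.exp (-(2 * (1 + Real.log ((R : ℝ) + 1)))) / (1 / ((R : ℝ) + 1)) ^ 2 =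
        Real.exp (-2) := by
      have h1 : -(2 * (1 + Real.log ((R : ℝ) + 1))) = -2 + -(Real.log ((R : ℝ) + 1)) +
        -(Real.log ((R : ℝ) + 1)) := by ring
      rw [h1, Real.exp_add, Real.exp_add, Real.exp_neg (Real.log _),
        Real.exp_log (by positivity)]
      field_simp
    rw [hexp] at htr
    have hΛΛ' : Λ ≤ Λ' := by
      rw [hΛ', le_div_iff₀ hpos]
      gcongr
    have hΛ'N : 12 * ((R : ℝ) + 1) ^ 2 ≤ Λ' := hΛ.trans hΛΛ'
    have hd' : d < Real.exp (Λ' * (q / (12 * ((R : ℝ) + 1) ^ 2)) ^ r) := by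
      refine hdΛ.trans_le (Real.exp_le_exp.2 (le_of_eq ?_))
      rw [hΛ', pow_succ]
      ring
    set Q : ℝ := (Fintype.card G : ℝ) ^ (r * q) with hQ
    have hG : (0 : ℝ) < Fintype.card G := by exact_mod_cast Fintype.card_pos
    have hQ0 : 0 < Q := by positivity
    -- the first bad event
    have hbad0 : ∑ z0 : Fin q → G, ind (Real.exp (-Λ') * d < rtr (E' z0)) ≤
        (Fintype.card G : ℝ) ^ q * Real.exp (-Λ') := by
      have h1 : ∀ z0 : Fin q → G, ind (Real.exp (-Λ') * d < rtr (E' z0)) ≤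
          rtr (E' z0) * (Real.exp Λ' / d) := by
        intro z0
        by_cases h : Real.exp (-Λ') * d < rtr (E' z0)
        · rw [ind_pos h]
          have h2 : Real.exp (-Λ') * d * (Real.exp Λ' / d) = 1 := by
            have : Real.exp (-Λ') * Real.exp Λ' = 1 := by rw [← Real.exp_add]; simp
            field_simp
            exact this
          calc (1 : ℝ) = Real.exp (-Λ') * d * (Real.exp Λ' / d) := h2.symm
            _ ≤ _ := by gcongr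
        · rw [ind_neg h]
          have h2 : 0 ≤ rtr (E' z0) := by
            rw [← (hs_proj _ (hE' z0)).1]
            exact hs_nonneg _
          positivity
      calc _ ≤ ∑ z0 : Fin q → G, rtr (E' z0) * (Real.exp Λ' / d) :=
            Finset.sum_le_sum fun z0 _ => h1 z0
        _ = (∑ z0 : Fin q → G, rtr (E' z0)) * (Real.exp Λ' / d) := by rw [Finset.sum_mul]
        _ ≤ ((Fintype.card G : ℝ) ^ q * d * 4 ^ q * (Real.exp (-2)) ^ m) *
              (Real.exp Λ' / d) := by gcongr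
        _ = (Fintype.card G : ℝ) ^ q *
              ((4 : ℝ) ^ q * (Real.exp (-2)) ^ m * Real.exp Λ') := by
          field_simp
        _ ≤ _ := by
          gcongr
          exact num2 q m R hR hq Λ Λ' hΛ hΛ' hm2
    -- transfer
    have htrans : ∀ (z0 : Fin q → G) (z' : Fin r → Fin q → G),
        (∀ v : V, ‖v‖ ^ 2 ≤ κ ^ r * ‖v - E' z0 v‖ ^ 2 +
          6 * R * κ ^ r / (q : ℝ) * ∑ i, En ρ (z' i) v) →
        ∀ v : V, ‖v‖ ^ 2 ≤ κ ^ (r + 1) * ‖v - E0 v‖ ^ 2 + 6 * R * κ ^ (r + 1) / (q : ℝ) *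
            ∑ i : Fin (r + 1), En ρ ((Fin.cons z0 z' : Fin (r + 1) → Fin q → G) i) v := by
      intro z0 z' h v
      have h1 := h v
      have h2 := step_energy ρ E0 (E' z0) hE0 q R hq1 hR z0 v (hgap z0 v)
      rw [← hκ] at h2
      rw [Fin.sum_univ_succ]
      simp only [Fin.cons_zero, Fin.cons_succ]
      have h3 : 0 ≤ ∑ i, En ρ (z' i) v :=
        Finset.sum_nonneg fun i _ => AMP1.En_nonneg ρ (z' i) v
      have h0 : 0 ≤ En ρ z0 v := AMP1.En_nonneg ρ z0 v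
      have hκr : 0 < κ ^ r := by positivity
      have h4 : κ ^ r * ‖v - E' z0 v‖ ^ 2 ≤
          κ ^ r * (κ * ‖v - E0 v‖ ^ 2 + 6 * R / (q : ℝ) * En ρ z0 v) :=
        mul_le_mul_of_nonneg_left h2 hκr.le
      have hκs : κ ^ r ≤ κ ^ (r + 1) := pow_le_pow_right₀ hκ1 (by omega)
      have h5 : κ ^ r * (6 * R / (q : ℝ) * En ρ z0 v) ≤
          6 * R * κ ^ (r + 1) / (q : ℝ) * En ρ z0 v := by
        have e : κ ^ r * (6 * R / (q : ℝ) * En ρ z0 v) =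
          κ ^ r * (6 * R / (q : ℝ) * En ρ z0 v) := rfl
        have e2 : 6 * R * κ ^ (r + 1) / (q : ℝ) * En ρ z0 v =
          κ ^ (r + 1) * (6 * R / (q : ℝ) * En ρ z0 v) := by ring
        rw [e2]
        gcongr
      have h6 : 6 * R * κ ^ r / (q : ℝ) * ∑ i, En ρ (z' i) v ≤
          6 * R * κ ^ (r + 1) / (q : ℝ) * ∑ i, En ρ (z' i) v := by
        gcongr
      have h7 : κ ^ (r + 1) * ‖v - E0 v‖ ^ 2 = κ ^ r * (κ * ‖v - E0 v‖ ^ 2) := by
        rw [pow_succ]; ring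
      rw [h7, mul_add (6 * R * κ ^ (r + 1) / (q : ℝ))]
      rw [mul_add] at h4
      linarith
    rw [card_eq_sum]
    have hsplit : ∑ z : Fin (r + 1) → Fin q → G, ind (¬ ∀ v : V,
        ‖v‖ ^ 2 ≤ κ ^ (r + 1) * ‖v - E0 v‖ ^ 2 + 6 * R * κ ^ (r + 1) / (q : ℝ) *
            ∑ i, En ρ (z i) v) =
        ∑ z0 : Fin q → G, ∑ z' : Fin r → Fin q → G, ind (¬ ∀ v : V,
        ‖v‖ ^ 2 ≤ κ ^ (r + 1) * ‖v - E0 v‖ ^ 2 + 6 * R * κ ^ (r + 1) / (q : ℝ) *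
            ∑ i : Fin (r + 1), En ρ ((Fin.cons z0 z' : Fin (r + 1) → Fin q → G) i) v) := by
      rw [← Fintype.sum_prod_type']
      symm
      refine Fintype.sum_equiv (Fin.consEquiv fun _ => Fin q → G) _ _ ?_
      rintro ⟨z0, z'⟩
      rfl
    rw [hsplit]
    have hinner : ∀ z0 : Fin q → G, ∑ z' : Fin r → Fin q → G, ind (¬ ∀ v : V,
        ‖v‖ ^ 2 ≤ κ ^ (r + 1) * ‖v - E0 v‖ ^ 2 + 6 * R * κ ^ (r + 1) / (q : ℝ) *
            ∑ i : Fin (r + 1), En ρ ((Fin.cons z0 z' : Fin (r + 1) → Fin q → G) i) v) ≤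
        ind (Real.exp (-Λ') * d < rtr (E' z0)) * Q +
          r * Real.exp (-Λ') * Q := by
      intro z0
      by_cases h : Real.exp (-Λ') * d < rtr (E' z0)
      · rw [ind_pos h]
        have h1 : 0 ≤ r * Real.exp (-Λ') * Q := by positivity
        have h2 : ∑ z' : Fin r → Fin q → G, ind (¬ ∀ v : V,
          ‖v‖ ^ 2 ≤ κ ^ (r + 1) * ‖v - E0 v‖ ^ 2 + 6 * R * κ ^ (r + 1) / (q : ℝ) *
            ∑ i : Fin (r + 1), En ρ ((Fin.cons z0 z' : Fin (r + 1) → Fin q → G) i) v) ≤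
            ∑ z' : Fin r → Fin q → G, (1 : ℝ) := by
          exact Finset.sum_le_sum fun z' _ => ind_le_one _
        have h3 : ∑ z' : Fin r → Fin q → G, (1 : ℝ) = Q := by
          rw [Finset.sum_const, Finset.card_univ, Fintype.card_fun, Fintype.card_fun,
            Fintype.card_fin, Fintype.card_fin, hQ]
          push_cast
          rw [nsmul_eq_mul, mul_one]
          push_cast
          rw [← pow_mul, mul_comm]
        linarith
      · rw [ind_neg h, zero_mul, zero_add]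
        have h1 := ih (E' z0) (hE' z0) Λ' hΛ'N (not_lt.1 h) hd'
        rw [card_eq_sum] at h1
        have h2 : ∑ z' : Fin r → Fin q → G, ind (¬ ∀ v : V,
          ‖v‖ ^ 2 ≤ κ ^ (r + 1) * ‖v - E0 v‖ ^ 2 + 6 * R * κ ^ (r + 1) / (q : ℝ) *
            ∑ i : Fin (r + 1), En ρ ((Fin.cons z0 z' : Fin (r + 1) → Fin q → G) i) v) ≤
            ∑ z' : Fin r → Fin q → G, ind (¬ ∀ v : V,
            ‖v‖ ^ 2 ≤ κ ^ r * ‖v - E' z0 v‖ ^ 2 +
          6 * R * κ ^ r / (q : ℝ) * ∑ i, En ρ (z' i) v) := by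
          exact Finset.sum_le_sum fun z' _ => ind_mono fun h3 h4 => h3 (htrans z0 z' h4)
        have h3 : Real.exp (-(Λ' * q / (12 * ((R : ℝ) + 1) ^ 2))) ≤ Real.exp (-Λ') := by
          apply Real.exp_le_exp.2
          have : Λ' ≤ Λ' * q / (12 * ((R : ℝ) + 1) ^ 2) := by
            rw [le_div_iff₀ hpos]
            gcongr
          linarith
        calc _ ≤ _ := h2
          _ ≤ _ := h1
          _ ≤ _ := by gcongr
    calc _ ≤ ∑ z0 : Fin q → G, (ind (Real.exp (-Λ') * d < rtr (E' z0)) * Q +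
          r * Real.exp (-Λ') * Q) := Finset.sum_le_sum fun z0 _ => hinner z0
      _ = (∑ z0 : Fin q → G, ind (Real.exp (-Λ') * d < rtr (E' z0))) * Q +
          (Fintype.card G : ℝ) ^ q * (r * Real.exp (-Λ') * Q) := by
        rw [Finset.sum_add_distrib, Finset.sum_mul, Finset.sum_const, Finset.card_univ,
          Fintype.card_fun, Fintype.card_fin, nsmul_eq_mul]
        push_cast
        rfl
      _ ≤ ((Fintype.card G : ℝ) ^ q * Real.exp (-Λ')) * Q +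
          (Fintype.card G : ℝ) ^ q * (r * Real.exp (-Λ') * Q) := by gcongr
      _ = _ := by
        rw [hQ]
        have h1 : (r + 1) * q = r * q + q := by ring
        rw [h1, pow_add]
        push_cast
        ring

theorem kappa_pow (R : ℕ) (hR : 1 ≤ R) : (((R : ℝ) + 2) / R) ^ R ≤ 8 := by
  have hR0 : (0 : ℝ) < R := by exact_mod_cast hR
  have h1 : ((R : ℝ) + 2) / R ≤ Real.exp (2 / R) := by
    have := Real.add_one_le_exp (2 / (R : ℝ))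
    calc ((R : ℝ) + 2) / R = 2 / R + 1 := by field_simp; ring
      _ ≤ _ := this
  calc (((R : ℝ) + 2) / R) ^ R ≤ (Real.exp (2 / R)) ^ R := pow_le_pow_left₀ (by positivity) h1 R
    _ = Real.exp 2 := by
      rw [← Real.exp_nat_mul]
      congr 1
      field_simp
    _ = Real.exp 1 * Real.exp 1 := by rw [← Real.exp_add]; norm_num
    _ ≤ 2.7182818286 * 2.7182818286 := by
      have := Real.exp_one_lt_d9
      gcongr
    _ ≤ 8 := by norm_num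

end ITER2aux

open AMP2 ITER2aux in
/-- `R` rounds with bounded total loss (cf. `AMP2.ITER`) -/
theorem ITER2 (ρ : G →* (V ≃ₗᵢ[ℂ] V)) (hirr : Irr ρ ⊤) (q R : ℕ) (hR : 1 ≤ R)
    (hq : 12 * (R + 1) ^ 2 ≤ q) (E0 : Module.End ℂ V) (hE0 : SymIdem E0) (Λ : ℝ)
    (hΛ : 12 * ((R : ℝ) + 1) ^ 2 ≤ Λ)
    (hτ : rtr E0 ≤ Real.exp (-Λ) * Module.finrank ℂ V)
    (hd : (Module.finrank ℂ V : ℝ) < Real.exp (Λ * (q / (12 * ((R : ℝ) + 1) ^ 2)) ^ R)) :
    (Nat.card {z : Fin R → Fin q → G // ¬ ∀ v : V,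
        ‖v‖ ^ 2 ≤ 8 * ‖v - E0 v‖ ^ 2 + 48 * R / (q : ℝ) * ∑ r, En ρ (z r) v} : ℝ) ≤
      R * Real.exp (-(Λ * q / (12 * ((R : ℝ) + 1) ^ 2))) *
        (Fintype.card G : ℝ) ^ (R * q) := by
  refine le_trans ?_ (iter ρ hirr q R hR hq R E0 hE0 Λ hΛ hτ hd)
  rw [card_eq_sum, card_eq_sum]
  refine Finset.sum_le_sum fun z _ => ind_mono fun h3 h4 => h3 fun v => (h4 v).trans ?_
  have h1 := kappa_pow R hR
  have h2 : 0 ≤ ∑ r, En ρ (z r) v := Finset.sum_nonneg fun r _ => AMP1.En_nonneg ρ (z r) v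
  have h5 : 6 * R * (((R : ℝ) + 2) / R) ^ R / (q : ℝ) * ∑ r, En ρ (z r) v ≤
      48 * R / (q : ℝ) * ∑ r, En ρ (z r) v := by
    have e : 6 * R * (((R : ℝ) + 2) / R) ^ R ≤ 48 * R := by
      have := mul_le_mul_of_nonneg_left h1 (by positivity : (0 : ℝ) ≤ 6 * R)
      linarith
    gcongr
  have h6 : (((R : ℝ) + 2) / R) ^ R * ‖v - E0 v‖ ^ 2 ≤ 8 * ‖v - E0 v‖ ^ 2 := by gcongr
  linarith

namespace ITER2aux

open AMP2 in
theorem ampq2 (ρ : G →* (V ≃ₗᵢ[ℂ] V)) (hirr : Irr ρ ⊤) (q m R : ℕ)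
    (hR : 1 ≤ R) (hq : 12 * (R + 1) ^ 2 ≤ q) (x b : Fin q → G) (L : ℕ) (η : ℝ)
    (hη : rtr (Sop ρ x b m ^ (2 * L)) ≤ η * Module.finrank ℂ V) (Λ : ℝ)
    (hΛ : 12 * ((R : ℝ) + 1) ^ 2 ≤ Λ)
    (hηΛ : (8 / 7 : ℝ) ^ (2 * L) * η ≤ Real.exp (-Λ))
    (hd : (Module.finrank ℂ V : ℝ) < Real.exp (Λ * (q / (12 * ((R : ℝ) + 1) ^ 2)) ^ R)) :
    (Nat.card {z : Fin R → Fin q → G // ¬ ∀ v : V,
        ‖v‖ ^ 2 ≤ 384 * (m : ℝ) ^ 2 / q * En ρ x v + 64 / (q : ℝ) * En ρ b v +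
          48 * R / (q : ℝ) * ∑ r, En ρ (z r) v} : ℝ) ≤
      R * Real.exp (-(Λ * q / (12 * ((R : ℝ) + 1) ^ 2))) *
        (Fintype.card G : ℝ) ^ (R * q) := by
  classical
  have hq1 : 1 ≤ q := by
    have : 1 ≤ 12 * (R + 1) ^ 2 := by
      have : 0 < (R + 1) ^ 2 := by positivity
      omega
    omega
  obtain ⟨E, hE, htr, hgap⟩ := SPEC (Sop ρ x b m) (Sop_symm ρ x b m)
    (fun v => Sop_le hq1 ρ x b m v) (7 / 8) (by norm_num) (by norm_num)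
  have hgap' : ∀ v, 8 * ‖v - E v‖ ^ 2 ≤
      384 * (m : ℝ) ^ 2 / q * En ρ x v + 64 / (q : ℝ) * En ρ b v := by
    intro v
    have h1 := hgap v
    have h2 := Sop_energy hq1 ρ x b m v
    have h3 : 384 * (m : ℝ) ^ 2 / q * En ρ x v + 64 / (q : ℝ) * En ρ b v =
        64 * (6 * (m : ℝ) ^ 2 / q * En ρ x v + 1 / (q : ℝ) * En ρ b v) := by ring
    rw [h3]
    linarith
  have hτ : rtr E ≤ Real.exp (-Λ) * Module.finrank ℂ V := by
    have h1 := (htr L).trans hη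
    have h2 : (8 / 7 : ℝ) ^ (2 * L) * ((7 / 8 : ℝ) ^ (2 * L) * rtr E) = rtr E := by
      rw [← mul_assoc, ← mul_pow]
      norm_num
    calc rtr E = (8 / 7 : ℝ) ^ (2 * L) * ((7 / 8 : ℝ) ^ (2 * L) * rtr E) := h2.symm
      _ ≤ (8 / 7 : ℝ) ^ (2 * L) * (η * Module.finrank ℂ V) := by gcongr
      _ = ((8 / 7 : ℝ) ^ (2 * L) * η) * Module.finrank ℂ V := by ring
      _ ≤ _ := by gcongr
  refine le_trans ?_ (ITER2 ρ hirr q R hR hq E hE Λ hΛ hτ hd)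
  rw [card_eq_sum, card_eq_sum]
  exact Finset.sum_le_sum fun z _ => ind_mono fun h3 h4 => h3 fun v =>
    (h4 v).trans (by linarith [hgap' v])

end ITER2aux

/-- amplification with bounded total loss, starting from `S` -/
theorem AMPQ2 (ρ : G →* (V ≃ₗᵢ[ℂ] V)) (W : Submodule ℂ V) (hW : Irr ρ W) (q m R : ℕ)
    (hR : 1 ≤ R) (hq : 12 * (R + 1) ^ 2 ≤ q) (x b : Fin q → G) (L : ℕ) (η : ℝ)
    (hη : RS ρ W hW.2.1 x b m (2 * L) ≤ η * Module.finrank ℂ W) (Λ : ℝ)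
    (hΛ : 12 * ((R : ℝ) + 1) ^ 2 ≤ Λ)
    (hηΛ : (8 / 7 : ℝ) ^ (2 * L) * η ≤ Real.exp (-Λ))
    (hd : (Module.finrank ℂ W : ℝ) < Real.exp (Λ * (q / (12 * ((R : ℝ) + 1) ^ 2)) ^ R)) :
    (Nat.card {z : Fin R → Fin q → G // ¬ ∀ v ∈ W,
        ‖v‖ ^ 2 ≤ 384 * (m : ℝ) ^ 2 / q * En ρ x v + 64 / (q : ℝ) * En ρ b v +
          48 * R / (q : ℝ) * ∑ r, En ρ (z r) v} : ℝ) ≤
      R * Real.exp (-(Λ * q / (12 * ((R : ℝ) + 1) ^ 2))) *
        (Fintype.card G : ℝ) ^ (R * q) := by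
  have h := ITER2aux.ampq2 (res ρ W hW.2.1) (AMP1.irr_res ρ W hW) q m R hR hq x b L η hη Λ hΛ hηΛ hd
  have hE : ∀ {ι : Type} [Fintype ι] (y : ι → G) (w : W),
      En (res ρ W hW.2.1) y w = En ρ y (w : V) := by
    intro ι _ y w
    unfold En
    apply Finset.sum_congr rfl
    intro i _
    rw [Submodule.coe_norm, Submodule.coe_sub, res_apply]
  have hiff : ∀ z : Fin R → Fin q → G, (¬ ∀ v ∈ W,
        ‖v‖ ^ 2 ≤ 384 * (m : ℝ) ^ 2 / q * En ρ x v + 64 / (q : ℝ) * En ρ b v +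
          48 * R / (q : ℝ) * ∑ r, En ρ (z r) v) ↔
      (¬ ∀ v : W, ‖v‖ ^ 2 ≤ 384 * (m : ℝ) ^ 2 / q * En (res ρ W hW.2.1) x v + 64 / (q : ℝ) *
          En (res ρ W hW.2.1) b v + 48 * R / (q : ℝ) * ∑ r, En (res ρ W hW.2.1) (z r) v) := by
    intro z
    apply not_congr
    constructor
    · intro h1 v
      have h2 := h1 v v.2
      rw [hE, hE, Submodule.coe_norm, Finset.sum_congr rfl fun r _ => hE (z r) v]
      exact h2
    · intro h1 v hv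
      have := h1 ⟨v, hv⟩
      rw [hE, hE, Submodule.coe_norm, Finset.sum_congr rfl fun r _ => hE (z r) ⟨v, hv⟩] at this
      exact this
  have hc := Nat.card_congr (Equiv.subtypeEquivRight hiff)
  rw [hc]
  exact h

end RC852
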